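import Pool.Agent.ZPC.Defs

/-!
Steps 1 and 2 of note 3205 (helper18), typed by helper66.
-/

set_option autoImplicit false
set_option linter.unusedSectionVars false

namespace Pool.Agent.ZPC

variable {V W B : Type} [AddCommGroup V] [Module (ZMod 2) V] [AddCommGroup W]
  [Module (ZMod 2) W] [AddCommGroup B] [Module (ZMod 2) B]
  {f : V →ₗ[ZMod 2] W →ₗ[ZMod 2] B} {c : B}

theorem fal (v v' : V) (w : W) : f (v + v') w = f v w + f v' w := by
  rw [map_add, LinearMap.add_apply]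

theorem cc (b : B) : b + b = 0 := ZModModule.add_self b

theorem eq_of_add {M : Type} [AddCommGroup M] [Module (ZMod 2) M] {x y : M} (h : x + y = 0) :
    x = y := by
  have := congrArg (fun t => t + y) h
  simp only [zero_add] at this
  rwa [aa] at this

/-- `v` is a neighbour of `u` -/
def Ad (f : V →ₗ[ZMod 2] W →ₗ[ZMod 2] B) (c : B) (u v : V) : Prop := Sc f c v ∧ Sc f c (u + v)

theorem ad_iff (h : FV f c) {u v : V} : Ad f c u v ↔ ∃ w, f u w = 0 ∧ f v w = c := by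
  constructor
  · rintro ⟨h1, h2⟩
    obtain ⟨w, h3, h4⟩ := h.link h1 h2
    refine ⟨w, ?_, h3⟩
    rw [fal, h3] at h4
    have := congrArg (fun t => t + c) h4
    simp only [aa, cc] at this
    exact this
  · rintro ⟨w, h1, h2⟩
    exact ⟨⟨w, h2⟩, w, by rw [fal, h1, h2, zero_add]⟩

theorem Ad.symm {u v : V} (hu : Sc f c u) (h : Ad f c u v) : Ad f c v u :=
  ⟨hu, by rw [add_comm]; exact h.2⟩

/-- the neighbours of `u` are the points of one line `l` -/
def OneLine (f : V →ₗ[ZMod 2] W →ₗ[ZMod 2] B) (c : B) (u : V) (l : W) : Prop :=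
  f u l = 0 ∧ (∃ v, f v l = c) ∧ ∀ t, Ad f c u t ↔ f t l = c

theorem one_line (h : FV f c) {u v : V} (hv : Ad f c u v)
    (h0 : ∀ w, f u w = 0 → f v w = 0 → w = 0) : ∃ l, OneLine f c u l := by
  obtain ⟨l, h1, h2⟩ := (ad_iff h).1 hv
  refine ⟨l, h1, ⟨v, h2⟩, fun t => ⟨fun ht => ?_, fun ht => (ad_iff h).2 ⟨l, h1, ht⟩⟩⟩
  obtain ⟨w, h3, h4, h5⟩ := h u v t ((ad_iff h).1 hv) ((ad_iff h).1 ht)
  have : w + l = 0 := h0 _ (by rw [map_add, h3, h1, zero_add]) (by rw [map_add, h4, h2, cc])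
  rw [eq_of_add this] at h5
  exact h5

theorem mem_VK_sup {K : Submodule (ZMod 2) W} {s : Set W} {v : V} :
    v ∈ VK f (K ⊔ Submodule.span (ZMod 2) s) ↔ v ∈ VK f K ∧ ∀ a ∈ s, f v a = 0 := by
  constructor
  · intro h
    exact ⟨fun w hw => h w (Submodule.mem_sup_left hw),
      fun a ha => h a (Submodule.mem_sup_right (Submodule.subset_span ha))⟩
  · rintro ⟨h1, h2⟩
    have h3 : K ⊔ Submodule.span (ZMod 2) s ≤ LinearMap.ker (f v) := by
      apply sup_le
      · exact fun w hw => h1 w hw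
      · rw [Submodule.span_le]
        exact fun a ha => h2 a ha
    exact fun w hw => h3 hw

/-- closure principle -/
theorem gen [Finite W] (hW : FW f c) (K : Submodule (ZMod 2) W) (X A : Set W)
    (h0 : ∀ w ∈ X, ∃ v ∈ VK f K, f v w = c)
    (h1 : ∀ a ∈ A, ∀ w ∈ X, ∃ w' ∈ X, ∀ v, f v w = c → f v w' = c → f v a = 0) :
    ∀ w ∈ X, ∃ v ∈ VK f (K ⊔ Submodule.span (ZMod 2) A), f v w = c := by
  classical
  have key : ∀ s : Finset W, (∀ a ∈ s, a ∈ A) →
      ∀ w ∈ X, ∃ v ∈ VK f (K ⊔ Submodule.span (ZMod 2) (s : Set W)), f v w = c := by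
    intro s
    induction s using Finset.induction_on with
    | empty =>
      intro _ w hw
      rw [Finset.coe_empty, Submodule.span_empty, sup_bot_eq]
      exact h0 w hw
    | insert a s _ ih =>
      intro hs w hw
      have ih' := ih (fun b hb => hs b (Finset.mem_insert_of_mem hb))
      obtain ⟨w', hw', h2⟩ := h1 a (hs a (Finset.mem_insert_self a s)) w hw
      obtain ⟨v, hv, h3, h4⟩ := hW _ w w' (ih' w hw) (ih' w' hw')
      refine ⟨v, ?_, h3⟩
      rw [mem_VK_sup] at hv ⊢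
      refine ⟨hv.1, fun b hb => ?_⟩
      rw [Finset.coe_insert] at hb
      rcases hb with rfl | hb
      · exact h2 v h3 h4
      · exact hv.2 b hb
  intro w hw
  have := key A.toFinite.toFinset (fun a ha => (Set.Finite.mem_toFinset _).1 ha) w hw
  rwa [Set.Finite.coe_toFinset] at this

section oneline
variable {u : V} {l : W} (hW : FW f c) (hV : FV f c) (hl : OneLine f c u l)
include hW hV hl

theorem key {b : W} (hb : f u b = 0) {t : V} (ht : f t (l + b) = c) : f t b = 0 ∧ f t l = c := by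
  have h1 : Ad f c u t := (ad_iff hV).2 ⟨l + b, by rw [map_add, hl.1, hb, zero_add], ht⟩
  have h2 := (hl.2.2 t).1 h1
  rw [map_add, h2] at ht
  refine ⟨?_, h2⟩
  have := congrArg (fun s => c + s) ht
  simp only [ab, cc] at this
  exact this

/-- the subspace `A (u)` -/
def Au : Submodule (ZMod 2) W where
  carrier := {b | f u b = 0 ∧ ∃ t, f t l = c ∧ f t b = 0}
  add_mem' := by
    rintro a b ⟨ha, s, hs, hs'⟩ ⟨hb, t, ht, ht'⟩
    refine ⟨by rw [map_add, ha, hb, zero_add], ?_⟩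
    obtain ⟨v, h1, h2⟩ := hW.link (w := l + a) (w1 := l + b) ⟨s, by rw [map_add, hs, hs', add_zero]⟩
      ⟨t, by rw [map_add, ht, ht', add_zero]⟩
    obtain ⟨h3, h4⟩ := key hW hV hl ha h1
    obtain ⟨h5, -⟩ := key hW hV hl hb h2
    exact ⟨v, h4, by rw [map_add, h3, h5, zero_add]⟩
  zero_mem' := by
    obtain ⟨v, hv⟩ := hl.2.1
    exact ⟨map_zero _, v, hv, map_zero _⟩
  smul_mem' := by
    rintro r a ⟨ha, t, ht, ht'⟩
    exact ⟨by rw [map_smul, ha, smul_zero], t, ht, by rw [map_smul, ht', smul_zero]⟩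

theorem mem_Au {b : W} : b ∈ Au hW hV hl ↔ f u b = 0 ∧ ∃ t, f t l = c ∧ f t b = 0 := Iff.rfl

/-- (2a) -/
theorem two_a [Finite W] (K : Submodule (ZMod 2) W)
    (hK : ∀ b ∈ Au hW hV hl, ∃ v ∈ VK f K, f v (l + b) = c) {w : W}
    (hw : ∃ v ∈ VK f K, f v w = c) :
    ∃ t ∈ VK f K, f t l = c ∧ f t w = c ∧ ∀ b ∈ Au hW hV hl, f t b = 0 := by
  have h := gen hW K ({x | ∃ b ∈ Au hW hV hl, x = l + b} ∪ {w}) (Au hW hV hl : Set W) (by
    rintro x (⟨b, hb, rfl⟩ | hx)
    · exact hK b hb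
    · rw [Set.mem_singleton_iff] at hx
      rw [hx]
      exact hw) (by
    intro a ha x _
    exact ⟨l + a, Or.inl ⟨a, ha, rfl⟩, fun v _ h2 => (key hW hV hl ha.1 h2).1⟩)
  obtain ⟨t, ht, h1, h2⟩ := hW _ l w
    (h l (Or.inl ⟨0, zero_mem _, by rw [add_zero]⟩)) (h w (Or.inr rfl))
  rw [mem_VK_sup] at ht
  exact ⟨t, ht.1, h1, h2, ht.2⟩

/-- (2b) -/
theorem two_b [Finite W] {v : V} (hv : f v l = c) :
    ∃ t, f t l = c ∧ (∀ a, f v a = 0 → f t a = 0) ∧ ∀ b ∈ Au hW hV hl, f t b = 0 := by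
  have h := gen hW ⊥ ({x | ∃ b ∈ Au hW hV hl, x = l + b} ∪ {x | ∃ a, f v a = 0 ∧ x = l + a})
    (Wa f v : Set W) (by
    rintro x (⟨b, ⟨-, t, ht, ht'⟩, rfl⟩ | ⟨a, ha, rfl⟩)
    · exact ⟨t, fun w hw => by rw [(Submodule.mem_bot _).1 hw, map_zero],
        by rw [map_add, ht, ht', add_zero]⟩
    · exact ⟨v, fun w hw => by rw [(Submodule.mem_bot _).1 hw, map_zero],
        by rw [map_add, hv, ha, add_zero]⟩) (by
    rintro a ha x (⟨b, hb, rfl⟩ | ⟨a', ha', rfl⟩)
    · refine ⟨l + a, Or.inr ⟨a, ha, rfl⟩, fun t h1 h2 => ?_⟩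
      have h3 := (key hW hV hl hb.1 h1).2
      rw [map_add, h3] at h2
      have := congrArg (fun s => c + s) h2
      simp only [ab, cc] at this
      exact this
    · refine ⟨l + a' + a, Or.inr ⟨a' + a, ?_, by rw [add_assoc]⟩, fun t h1 h2 => ?_⟩
      · rw [map_add, ha', mem_Wa.1 ha, zero_add]
      · rw [map_add, h1] at h2
        have := congrArg (fun s => c + s) h2
        simp only [ab, cc] at this
        exact this)
  have hle : ∀ t ∈ VK f (⊥ ⊔ Submodule.span (ZMod 2) (Wa f v : Set W)), t ∈ VK f (Wa f v) := by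
    intro t ht w hw
    exact (mem_VK_sup.1 ht).2 w hw
  obtain ⟨t, ht, h1, -, h2⟩ := two_a hW hV hl (Wa f v) (w := l) (fun b hb => by
    obtain ⟨t, ht, ht'⟩ := h (l + b) (Or.inl ⟨b, hb, rfl⟩)
    exact ⟨t, hle t ht, ht'⟩) ⟨v, fun w hw => hw, hv⟩
  exact ⟨t, h1, fun a ha => ht a ha, h2⟩

omit hW in
theorem E_of_Au {w : W} (h : f u w = 0) {v : V} (hv : f v w = c) :
    f u (w + l) = 0 ∧ f v l = c ∧ f v (w + l) = 0 := by
  have h1 := (hl.2.2 v).1 ((ad_iff hV).2 ⟨w, h, hv⟩)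
  exact ⟨by rw [map_add, h, hl.1, zero_add], h1, by rw [map_add, hv, h1, cc]⟩

/-- if `A (u) = 0` then `l` is the only line killed by `u` -/
theorem E_single (hA : ∀ b ∈ Au hW hV hl, b = 0) {w : W} (h : f u w = 0) {v : V}
    (hv : f v w = c) : w = l := by
  obtain ⟨h1, h2, h3⟩ := E_of_Au hV hl h hv
  exact eq_of_add (hA _ ⟨h1, v, h2, h3⟩)

/-- if the partner `v` is heaviest then `A (u) = 0` -/
theorem Au_zero [Finite W] (hc : c ≠ 0) {v : V} (hv : f v l = c)
    (h0 : ∀ w, f u w = 0 → f v w = 0 → w = 0) (hh : Heavy f v) : ∀ b ∈ Au hW hV hl, b = 0 := by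
  intro b hb
  obtain ⟨t, h1, h2, h3⟩ := two_b hW hV hl hv
  have ht : t ≠ 0 := by
    rintro rfl
    rw [map_zero, LinearMap.zero_apply] at h1
    exact hc h1.symm
  have hle : Wa f v ≤ Wa f t := fun a ha => h2 a ha
  have heq : (Wa f v : Set W) = Wa f t := by
    apply Set.eq_of_subset_of_ncard_le hle
    exact hh t ht
  have : b ∈ (Wa f v : Set W) := by
    rw [heq]
    exact h3 b hb
  exact h0 b hb.1 this

end oneline

end Pool.Agent.ZPC
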