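import Mathlib

/-!
Values of a bilinear map over `F_2`: the setting of note 3205 (helper18), typed by helper66.
-/

set_option autoImplicit false
set_option linter.unusedSectionVars false

namespace Pool.Agent.ZPC

variable {V W B : Type} [AddCommGroup V] [Module (ZMod 2) V] [AddCommGroup W]
  [Module (ZMod 2) W] [AddCommGroup B] [Module (ZMod 2) B]

theorem aa {M : Type} [AddCommGroup M] [Module (ZMod 2) M] (x y : M) : x + y + y = x := by
  rw [add_assoc, ZModModule.add_self, add_zero]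

theorem ab {M : Type} [AddCommGroup M] [Module (ZMod 2) M] (x y : M) : x + (x + y) = y := by
  rw [← add_assoc, ZModModule.add_self, zero_add]

/-- the annihilator in `V` of a subspace of `W` -/
def VK (f : V →ₗ[ZMod 2] W →ₗ[ZMod 2] B) (K : Submodule (ZMod 2) W) : Submodule (ZMod 2) V where
  carrier := {v | ∀ w ∈ K, f v w = 0}
  add_mem' := fun {a b} ha hb w hw => by
    rw [map_add, LinearMap.add_apply, ha w hw, hb w hw, add_zero]
  zero_mem' := fun w _ => by rw [map_zero, LinearMap.zero_apply]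
  smul_mem' := fun r a ha w hw => by rw [map_smul, LinearMap.smul_apply, ha w hw, smul_zero]

theorem mem_VK {f : V →ₗ[ZMod 2] W →ₗ[ZMod 2] B} {K : Submodule (ZMod 2) W} {v : V} :
    v ∈ VK f K ↔ ∀ w ∈ K, f v w = 0 := Iff.rfl

/-- the annihilator in `W` of an element of `V` -/
def Wa (f : V →ₗ[ZMod 2] W →ₗ[ZMod 2] B) (v : V) : Submodule (ZMod 2) W := LinearMap.ker (f v)

theorem mem_Wa {f : V →ₗ[ZMod 2] W →ₗ[ZMod 2] B} {v : V} {w : W} : w ∈ Wa f v ↔ f v w = 0 :=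
  LinearMap.mem_ker

/-- `c` is a value of `v` -/
def Sc (f : V →ₗ[ZMod 2] W →ₗ[ZMod 2] B) (c : B) (v : V) : Prop := ∃ w, f v w = c

/-- linkage at `c` of the annihilators of the subspaces of `W` -/
def FW (f : V →ₗ[ZMod 2] W →ₗ[ZMod 2] B) (c : B) : Prop :=
  ∀ K : Submodule (ZMod 2) W, ∀ w w1 : W, (∃ v ∈ VK f K, f v w = c) →
    (∃ v ∈ VK f K, f v w1 = c) → ∃ v ∈ VK f K, f v w = c ∧ f v w1 = c

/-- linkage at `c` of the annihilators of the elements of `V` -/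
def FV (f : V →ₗ[ZMod 2] W →ₗ[ZMod 2] B) (c : B) : Prop :=
  ∀ u v v1 : V, (∃ w, f u w = 0 ∧ f v w = c) → (∃ w, f u w = 0 ∧ f v1 w = c) →
    ∃ w, f u w = 0 ∧ f v w = c ∧ f v1 w = c

/-- `y` has the largest annihilator -/
def Heavy (f : V →ₗ[ZMod 2] W →ₗ[ZMod 2] B) (y : V) : Prop :=
  ∀ v, v ≠ 0 → Nat.card (Wa f v) ≤ Nat.card (Wa f y)

/-- the situation after Step 6 of note 3205: `l` is a bijection from the points (elements of `V`
with value `c`) to the lines (elements of `W` with value `c`) such that the neighbours of `u` are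
the points on the line `l u` -/
structure Pol (f : V →ₗ[ZMod 2] W →ₗ[ZMod 2] B) (c : B) (l : V → W) : Prop where
  c0 : c ≠ 0
  fw : FW f c
  fv : FV f c
  p1 : ∀ {u}, Sc f c u → f u (l u) = 0
  p2 : ∀ {u v}, Sc f c u → (f v (l u) = c ↔ Sc f c v ∧ Sc f c (u + v))
  p3 : ∀ {u v w}, Sc f c u → f u w = 0 → f v w = c → w = l u
  p4 : ∀ {u v}, Sc f c u → Sc f c v → l u = l v → u = v
  p5 : ∀ {v w}, f v w = c → ∃ u, Sc f c u ∧ l u = w

/-- linkage of two points -/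
theorem FV.link {f : V →ₗ[ZMod 2] W →ₗ[ZMod 2] B} {c : B} (h : FV f c) {u v : V}
    (hu : Sc f c u) (hv : Sc f c v) : ∃ w, f u w = c ∧ f v w = c := by
  obtain ⟨a, ha⟩ := hu
  obtain ⟨b, hb⟩ := hv
  obtain ⟨w, -, h1, h2⟩ := h 0 u v ⟨a, by simp, ha⟩ ⟨b, by simp, hb⟩
  exact ⟨w, h1, h2⟩

/-- linkage of two lines -/
theorem FW.link {f : V →ₗ[ZMod 2] W →ₗ[ZMod 2] B} {c : B} (h : FW f c) {w w1 : W}
    (hw : ∃ v, f v w = c) (hw1 : ∃ v, f v w1 = c) : ∃ v, f v w = c ∧ f v w1 = c := by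
  obtain ⟨a, ha⟩ := hw
  obtain ⟨b, hb⟩ := hw1
  obtain ⟨v, -, h1, h2⟩ := h ⊥ w w1 ⟨a, fun x hx => by rw [(Submodule.mem_bot _).1 hx, map_zero], ha⟩
    ⟨b, fun x hx => by rw [(Submodule.mem_bot _).1 hx, map_zero], hb⟩
  exact ⟨v, h1, h2⟩

end Pool.Agent.ZPC
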