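import Pool.Agent.ZPC.Steps

/-!
Step 12 and the end of note 3205 (helper18), typed by helper66.
-/

set_option autoImplicit false
set_option linter.unusedSectionVars false

namespace Pool.Agent.ZPC

/-- the statement of Steps 7 to 11 -/
def Star : Prop := ∀ (V W B : Type) [AddCommGroup V] [Module (ZMod 2) V] [AddCommGroup W]
  [Module (ZMod 2) W] [AddCommGroup B] [Module (ZMod 2) B] [Finite V] [Finite W]
  (f : V →ₗ[ZMod 2] W →ₗ[ZMod 2] B) (c : B) (l : V → W), Pol f c l → ∀ y, Sc f c y →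
  Heavy f y → 4 ≤ Nat.card (Wa f y) → ∀ s, Sc f c s → s ≠ y → Sc f c (y + s)

variable {V W B : Type} [AddCommGroup V] [Module (ZMod 2) V] [AddCommGroup W]
  [Module (ZMod 2) W] [AddCommGroup B] [Module (ZMod 2) B]
  {f : V →ₗ[ZMod 2] W →ₗ[ZMod 2] B} {c : B}

/-- Step 12 -/
theorem step12 [Finite W] {l : V → W} (P : Pol f c l) {x y : V} (hx : Sc f c x) (hy : Sc f c y)
    (hs : Sc f c (x + y)) (hd : ∀ w, f x w = 0 → f y w = 0 → w = 0)
    (star : ∀ s, Sc f c s → s ≠ y → Sc f c (y + s)) : Nat.card (Wa f x) ≤ 2 := by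
  classical
  have h1 : f x (l y) = c := (P.p2 hy).2 ⟨hx, by rw [add_comm]; exact hs⟩
  have h2 : f x (l (x + y)) = c := (P.p2 hs).2 ⟨hx, by
    rw [add_comm x y, aa]
    exact hy⟩
  have h3 : f y (l (x + y)) = c := (P.p2 hs).2 ⟨hy, by rw [aa]; exact hx⟩
  have key : ∀ w, f x w = 0 → w = 0 ∨ w = l y + l (x + y) := by
    intro w hw
    obtain ⟨u, hu, h4⟩ := P.p5 (v := x) (w := l y + w) (by rw [map_add, h1, hw, add_zero])
    by_cases huy : u = y
    · left
      rw [huy] at h4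
      have := congrArg (fun s => l y + s) h4
      simp only [ab, ZModModule.add_self] at this
      exact this.symm
    · right
      have h5 : f x (l u) = c := by rw [h4, map_add, h1, hw, add_zero]
      have h6 : f y (l u) = c := (P.p2 hu).2 ⟨hy, by rw [add_comm]; exact star u hu huy⟩
      have h7 : l u + l (x + y) = 0 := hd _ (by rw [map_add, h5, h2, cc])
        (by rw [map_add, h6, h3, cc])
      have h8 := eq_of_add h7
      rw [h4] at h8
      rw [← h8, ab]
  have h4 : (Wa f x : Set W) ⊆ ({0, l y + l (x + y)} : Set W) := by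
    intro w hw
    rcases key w hw with h | h
    · exact Or.inl h
    · exact Or.inr h
  calc Nat.card (Wa f x) = (Wa f x : Set W).ncard := rfl
    _ ≤ ({0, l y + l (x + y)} : Set W).ncard := Set.ncard_le_ncard h4
    _ ≤ 2 := (Set.ncard_insert_le _ _).trans (by rw [Set.ncard_singleton])

/-- **Theorem ZPc** of note 3205 -/
theorem zpc (hstar : Star) : ∀ (n : ℕ) (V W B : Type) [AddCommGroup V] [Module (ZMod 2) V]
    [AddCommGroup W] [Module (ZMod 2) W] [AddCommGroup B] [Module (ZMod 2) B] [Finite V]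
    [Finite W] (f : V →ₗ[ZMod 2] W →ₗ[ZMod 2] B) (c : B) (x y : V), Nat.card W = n → c ≠ 0 →
    FW f c → FV f c → Heavy f y → Sc f c x → Sc f c y → Sc f c (x + y) →
    Nat.card (Wa f x) = 2 * Nat.card (Wa f x ⊓ Wa f y : Submodule (ZMod 2) W) := by
  intro n
  induction n using Nat.strong_induction_on with
  | _ n ih =>
    intro V W B _ _ _ _ _ _ _ _ f c x y hn hc hW hV hy hx hsy hs
    -- the induction hypothesis for the quotients
    have hIH : ∀ K : Submodule (ZMod 2) W, (∃ b ∈ K, b ≠ 0) → ∀ t y' : VK f K,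
        Heavy (fq f K) y' → Sc (fq f K) c t → Sc (fq f K) c y' → Sc (fq f K) c (t + y') →
        Nat.card (Wa (fq f K) t) =
        2 * Nat.card (Wa (fq f K) t ⊓ Wa (fq f K) y' : Submodule (ZMod 2) (W ⧸ K)) := by
      rintro K ⟨b, hb, hb0⟩ t y' h1 h2 h3 h4
      exact ih _ (hn ▸ card_quot_lt hb hb0) (VK f K) (W ⧸ K) B (fq f K) c t y' rfl hc hW.fq hV.fq
        h1 h2 h3 h4
    by_cases hd : ∀ w, f x w = 0 → f y w = 0 → w = 0
    · have h0 : (Wa f x ⊓ Wa f y : Submodule (ZMod 2) W) = ⊥ := by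
        rw [eq_bot_iff]
        rintro w ⟨h1, h2⟩
        exact (Submodule.mem_bot _).2 (hd w h1 h2)
      have h1 : Nat.card (Wa f x ⊓ Wa f y : Submodule (ZMod 2) W) = 1 := by
        rw [h0]
        exact Nat.card_unique
      rw [h1]
      have hne : ∃ w, w ∈ Wa f x ∧ w ≠ 0 := by
        obtain ⟨w, h2, h3⟩ := (ad_iff hV).1 (⟨hsy, hs⟩ : Ad f c x y)
        refine ⟨w, h2, ?_⟩
        rintro rfl
        rw [map_zero] at h3
        exact hc h3.symm
      have hp := Module.natCard_eq_pow_finrank (K := ZMod 2) (V := Wa f x)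
      rw [Nat.card_zmod] at hp
      have h2 : 1 < Nat.card (Wa f x) := by
        rw [Finite.one_lt_card_iff_nontrivial]
        obtain ⟨w, hw, hw0⟩ := hne
        exact ⟨⟨⟨w, hw⟩, 0, fun h => hw0 (congrArg Subtype.val h)⟩⟩
      by_contra h3
      have h4 : 4 ≤ Nat.card (Wa f x) := by
        rw [hp] at h2 h3 ⊢
        rcases Nat.lt_or_ge (Module.finrank (ZMod 2) (Wa f x)) 2 with h | h
        · interval_cases hh : Module.finrank (ZMod 2) (Wa f x)
          · simp at h2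
          · simp at h3
        · calc 4 = 2 ^ 2 := by norm_num
            _ ≤ _ := Nat.pow_le_pow_right (by norm_num) h
      obtain ⟨ly, hl, hE⟩ := step3 hW hV hy hx hsy hs hd h4 hIH
      obtain ⟨l, P⟩ := exists_pol hc hW hV hy hsy hl hE
      have hx0 : x ≠ 0 := by
        rintro rfl
        obtain ⟨w, hw⟩ := hx
        rw [map_zero, LinearMap.zero_apply] at hw
        exact hc hw.symm
      have h5 := step12 P hx hsy hs hd (hstar V W B f c l P y hsy hy (h4.trans (hy x hx0)))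
      omega
    · push Not at hd
      obtain ⟨b, h1, h2, h3⟩ := hd
      have hbK : b ∈ (Wa f x ⊓ Wa f y : Submodule (ZMod 2) W) := ⟨h1, h2⟩
      have hxK : x ∈ VK f (Wa f x ⊓ Wa f y) := fun w hw => hw.1
      have hyK : y ∈ VK f (Wa f x ⊓ Wa f y) := fun w hw => hw.2
      have h4 := hIH (Wa f x ⊓ Wa f y) ⟨b, hbK, h3⟩ ⟨x, hxK⟩ ⟨y, hyK⟩ (heavy_fq hy) (sc_fq.2 hx)
        (sc_fq.2 hsy) (sc_fq.2 hs)
      have h5 := card_Wa_fq (f := f) (K := Wa f x ⊓ Wa f y) ⟨x, hxK⟩
      have h6 := card_inf_fq (f := f) (K := Wa f x ⊓ Wa f y) ⟨x, hxK⟩ ⟨y, hyK⟩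
      calc Nat.card (Wa f x) = _ := h5
        _ = 2 * (Nat.card (Wa f x ⊓ Wa f y : Submodule (ZMod 2) W) *
          Nat.card (Wa (fq f (Wa f x ⊓ Wa f y)) ⟨x, hxK⟩ ⊓ Wa (fq f (Wa f x ⊓ Wa f y)) ⟨y, hyK⟩ :
            Submodule (ZMod 2) (W ⧸ (Wa f x ⊓ Wa f y)))) := by
          rw [h4]
          ring
        _ = _ := by rw [← h6]

end Pool.Agent.ZPC
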